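import Pool.Agent.Helper25.PCap.GoalsF
import Pool.Agent.Helper25.PCap.GoalsA

/-!
Packet A11d of MP_576c25_an: strict inequality of the second modes.
-/

set_option autoImplicit false

open MeasureTheory Set Filter Topology
open scoped ContDiff Real

noncomputable section

namespace Pool.Agent.Helper51.PCap

open Pool.Agent.Helper25.PCap

theorem isOpen_SC : IsOpen SC := by
  have h1 : IsOpen {z : ℝ × ℝ | z.1 < 0} := isOpen_lt continuous_fst continuous_const
  have h2 : IsOpen {z : ℝ × ℝ | Real.sin z.2 ≠ 0} :=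
    isOpen_ne_fun (Real.continuous_sin.comp continuous_snd) continuous_const
  exact h1.union h2

theorem hasDerivAt_u {κ : ℝ} (S : SData κ) {t θ : ℝ} (h : (t, θ) ∈ SC) :
    HasDerivAt (fun θ => S.u (t, θ)) (D2 S.u (t, θ)) θ := by
  have h1 : DifferentiableAt ℝ S.u (t, θ) :=
    (S.smooth.contDiffAt (isOpen_SC.mem_nhds h)).differentiableAt (by simp)
  have h2 : HasDerivAt (fun θ : ℝ => ((t, θ) : ℝ × ℝ)) (0, 1) θ :=
    (hasDerivAt_const θ t).prodMk (hasDerivAt_id θ)
  exact h1.hasFDerivAt.comp_hasDerivAt θ h2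

theorem strictAnti_u {κ : ℝ} (S : SData κ) (t : ℝ) :
    StrictAntiOn (fun θ => S.u (t, θ)) (Icc 0 (π / 2)) := by
  refine strictAntiOn_of_deriv_neg (convex_Icc _ _) ?_ ?_
  · exact (S.cont.comp (by fun_prop)).continuousOn
  · intro θ hθ
    rw [interior_Icc] at hθ
    have hs : (t, θ) ∈ SC := by
      right
      have := Real.sin_pos_of_pos_of_lt_pi hθ.1 (by linarith [hθ.2, Real.pi_pos])
      exact this.ne'
    rw [(hasDerivAt_u S hs).deriv]
    exact S.uneg t θ hθ.1 hθ.2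

theorem PA.toPAw {κ : ℝ} {S : SFull κ} {D : TData κ S.C0} {α : ℝ} (h : PA S D α) : PAw S D α := by
  intro z hz hu
  obtain ⟨ϑ, h1, h2, h3, h4⟩ := h z hz hu
  exact ⟨ϑ, h1.le, h2.le, h3, h4.le⟩

theorem aa_pos (h0 : GExpo) {κ : ℝ} (hκ : 0 < κ) (hκ1 : κ < 1) {n : ℕ} (hn : 1 ≤ n) :
    0 < aa κ n := by
  have h := (h0 κ hκ hκ1).2.2.2.2.2.1 n
  have h1 : 0 < Real.sqrt κ * n := by
    have : (0 : ℝ) < n := by exact_mod_cast hn
    positivity
  linarith

/-- equality of all the coefficients gives equality of the functions -/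
theorem same_fun {κ : ℝ} (hκ : 0 < κ) (hκ1 : κ < 1) {α C0 : ℝ} (hα : 0 < α) {cS cT : ℕ → ℂ}
    {τS τT : ℝ} {uS omS uT omT : ℝ × ℝ → ℝ} (hS : FExp κ C0 uS omS cS τS)
    (hT : FExp κ C0 uT omT cT τT) (him : ∀ n, (cS n).im = 0)
    (he : ∀ n, cT n = (sg κ α cS n : ℝ)) {τ θ : ℝ} (h1 : τ ≤ τT) (h2 : shf κ α τ ≤ τS) :
    uT (τ, θ) = α * uS (shf κ α τ, θ) ∧ omT (τ, θ) = omS (shf κ α τ, θ) := by
  have hk : (1 - κ) ≠ 0 := by linarith
  obtain ⟨a1, _, _, a4⟩ := hS.2.2.2 (shf κ α τ) θ h2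
  obtain ⟨b1, _, _, b4⟩ := hT.2.2.2 τ θ h1
  have hmd : ∀ n, md cT n θ = (α * Real.exp (-(aa κ n * (Real.log α / (1 - κ)))) : ℝ) * md cS n θ := by
    intro n
    have hc : cS n = ((cS n).re : ℂ) := by
      apply Complex.ext
      · simp
      · simp [him n]
    rw [md, md, he n, sg]
    conv_rhs => rw [hc]
    push_cast
    ring
  have hexp : Real.exp ((1 - κ) * shf κ α τ) * α = Real.exp ((1 - κ) * τ) := by
    have : (1 - κ) * shf κ α τ = (1 - κ) * τ - Real.log α := by
      rw [shf]; field_simp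
    rw [this, Real.exp_sub, Real.exp_log hα]
    field_simp
  have hexpn : ∀ n, Real.exp (aa κ n * shf κ α τ) =
      Real.exp (-(aa κ n * (Real.log α / (1 - κ)))) * Real.exp (aa κ n * τ) := by
    intro n
    rw [← Real.exp_add]
    congr 1
    rw [shf]; ring
  have hexpb : ∀ n, Real.exp (bb κ n * shf κ α τ) =
      α * Real.exp (-(aa κ n * (Real.log α / (1 - κ)))) * Real.exp (bb κ n * τ) := by
    intro n
    have : bb κ n * shf κ α τ = Real.log α + -(aa κ n * (Real.log α / (1 - κ))) + bb κ n * τ := by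
      rw [shf, bb]; field_simp; ring
    rw [this, Real.exp_add, Real.exp_add, Real.exp_log hα]
  constructor
  · have c1 := a1.mul_left α
    have c2 : HasSum (fun n : ℕ => (md cT n θ).re * Real.exp (aa κ n * τ))
        (α * (uS (shf κ α τ, θ) - C0 * Real.exp ((1 - κ) * shf κ α τ))) := by
      refine (congrArg (fun f => HasSum f _) ?_).mp c1
      ext n
      rw [hmd n, Complex.re_ofReal_mul, hexpn n]
      ring
    have c3 := c2.unique b1
    have c4 : α * (C0 * Real.exp ((1 - κ) * shf κ α τ)) = C0 * Real.exp ((1 - κ) * τ) := by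
      rw [← hexp]; ring
    linarith
  · have c2 : HasSum (fun n : ℕ => BB κ C0 * (aa κ n / n) * (md cT n θ).im * Real.exp (bb κ n * τ))
        (omS (shf κ α τ, θ)) := by
      refine (congrArg (fun f => HasSum f _) ?_).mp a4
      ext n
      rw [hmd n, Complex.im_ofReal_mul, hexpb n]
      ring
    exact b4.unique c2

theorem pkA11d (h0 : GExpo) (h : GA0) (ha : GA11a) (hb : GA11b) (hc : GA11c) : GA11d := by
  intro κ hκ hκ1 S D α cS cT τS τT hα hα1 hS him hre hT hτT hPA
  have hle := ha κ hκ hκ1 S D α cS cT τS τT hα hα1 hS him hre hT hτT (PA.toPAw hPA)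
  by_contra hlt
  have heq : ‖cT 2‖ = sg κ α cS 2 := le_antisymm hle (not_lt.mp hlt)
  obtain ⟨D', hT', hu', hom', hF'⟩ := (h κ hκ hκ1).2.1 S.C0 D (Complex.arg (cT 2) / 2)
  have hFE := hF' cT τT hT
  set c' : ℕ → ℂ := fun n => cT n *
    Complex.exp (((-((n : ℝ) * (Complex.arg (cT 2) / 2))) : ℝ) * Complex.I) with hc'
  have hτT' : ∀ θ, τT ≤ D'.T θ := fun θ => by rw [hT']; exact hτT _
  have hPA' : PA S D' α := by
    rintro ⟨τ, θ⟩ hz hu
    have hz' : τ ≤ D'.T θ := hz
    rw [hT'] at hz'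
    rw [hu'] at hu ⊢
    rw [hom']
    exact hPA (τ, θ - Complex.arg (cT 2) / 2) hz' hu
  have hc2 : c' 2 = (sg κ α cS 2 : ℝ) := by
    rw [hc', ← heq]
    simp only
    have e1 : cT 2 = (‖cT 2‖ : ℂ) * Complex.exp (Complex.arg (cT 2) * Complex.I) :=
      (Complex.norm_mul_exp_arg_mul_I (cT 2)).symm
    have e2 : Complex.exp (Complex.arg (cT 2) * Complex.I) *
        Complex.exp (((-(((2 : ℕ) : ℝ) * (Complex.arg (cT 2) / 2))) : ℝ) * Complex.I) = 1 := by
      rw [← Complex.exp_add, ← Complex.exp_zero]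
      congr 1
      push_cast
      ring
    calc cT 2 * Complex.exp (((-(((2 : ℕ) : ℝ) * (Complex.arg (cT 2) / 2))) : ℝ) * Complex.I)
        = (‖cT 2‖ : ℂ) * Complex.exp (Complex.arg (cT 2) * Complex.I) *
          Complex.exp (((-(((2 : ℕ) : ℝ) * (Complex.arg (cT 2) / 2))) : ℝ) * Complex.I) := by
          rw [← e1]
      _ = (‖cT 2‖ : ℂ) := by rw [mul_assoc, e2, mul_one]
  have hall : ∀ n, c' n = (sg κ α cS n : ℝ) := by
    intro n
    induction n using Nat.strong_induction_on with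
    | _ n ih =>
      rcases Nat.lt_or_ge n 3 with hn | hn
      · interval_cases n
        · rw [hFE.2.1, sg, hS.2.1]; simp
        · rw [hFE.2.2.1, sg, hS.2.2.1]; simp
        · exact hc2
      · have h1 := hc κ hκ hκ1 S D' α cS c' τS τT n hα hα1 hS him hre hFE hτT' (PA.toPAw hPA') hn ih
        have hρ : 0 < (aa κ n / n) / (aa κ 2 / 2) := by
          have p1 := aa_pos h0 hκ hκ1 (n := n) (by omega)
          have p2 := aa_pos h0 hκ hκ1 (n := 2) (by omega)
          have p3 : (0 : ℝ) < n := by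
            have : 0 < n := by omega
            exact_mod_cast this
          positivity
        have h2 := hb (c' n - (sg κ α cS n : ℝ)) _ n hn hρ h1
        exact sub_eq_zero.mp h2
  -- the contradiction at `θ = π / 4`
  set τ := min τT (τS + Real.log α / (1 - κ)) with hτ
  have ht : shf κ α τ ≤ τS := by
    rw [shf]
    have := min_le_right τT (τS + Real.log α / (1 - κ))
    linarith
  obtain ⟨e1, e2⟩ := same_fun hκ hκ1 hα hS hFE him hall (min_le_left _ _ : τ ≤ τT) ht
    (θ := π / 4)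
  have hsin : (shf κ α τ, π / 4) ∈ SC := by
    right
    have := Real.sin_pos_of_pos_of_lt_pi (x := π / 4) (by positivity) (by linarith [Real.pi_pos])
    exact this.ne'
  have hlt1 := S.lt1 _ hsin
  have hult : D'.u (τ, π / 4) < α := by
    rw [e1]
    calc α * S.u (shf κ α τ, π / 4) < α * 1 := by
          exact mul_lt_mul_of_pos_left hlt1 hα
      _ = α := mul_one α
  obtain ⟨ϑ, k1, k2, k3, k4⟩ := hPA' (τ, π / 4) ((min_le_left _ _).trans (hτT' _)) hult
  have k3' : S.u (shf κ α τ, ϑ) = S.u (shf κ α τ, π / 4) := by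
    rw [k3, e1, mul_div_cancel_left₀ _ hα.ne']
  have hϑ : ϑ = π / 4 := by
    refine (strictAnti_u S.toSData (shf κ α τ)).injOn ⟨k1.le, k2.le⟩ ⟨by positivity, ?_⟩ k3'
    linarith [Real.pi_pos]
  have k4' : |D'.om (τ, π / 4)| < S.om (shf κ α τ, ϑ) := k4
  rw [hϑ, e2] at k4'
  exact absurd (le_abs_self _) (not_le.mpr k4')

end Pool.Agent.Helper51.PCap
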