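import Pool.Agent.Helper25.PCap.GoalsB
import Pool.Agent.Helper51.PCap.PkA11d

/-!
Packet B7 of MP_576c25_an: the star inequality.
-/

set_option autoImplicit false

open MeasureTheory Set Filter Topology
open scoped ContDiff Real

noncomputable section

namespace Pool.Agent.Helper51.PCap

open Pool.Agent.Helper25.PCap

theorem hasDerivAt_snd {F : ℝ × ℝ → ℝ} {V : Set (ℝ × ℝ)} (hV : IsOpen V)
    (hF : ContDiffOn ℝ ∞ F V) {t θ : ℝ} (h : (t, θ) ∈ V) :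
    HasDerivAt (fun θ => F (t, θ)) (D2 F (t, θ)) θ := by
  have h1 : DifferentiableAt ℝ F (t, θ) :=
    (hF.contDiffAt (hV.mem_nhds h)).differentiableAt (by simp)
  have h2 : HasDerivAt (fun θ : ℝ => ((t, θ) : ℝ × ℝ)) (0, 1) θ :=
    (hasDerivAt_const θ t).prodMk (hasDerivAt_id θ)
  exact h1.hasFDerivAt.comp_hasDerivAt θ h2

theorem contDiffOn_D2 {F : ℝ × ℝ → ℝ} {V : Set (ℝ × ℝ)} (hV : IsOpen V)
    (hF : ContDiffOn ℝ ∞ F V) : ContDiffOn ℝ ∞ (D2 F) V := by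
  have h1 : ContDiffOn ℝ ∞ (fderiv ℝ F) V := hF.fderiv_of_isOpen hV (by simp)
  exact h1.clm_apply contDiffOn_const

theorem contDiffAt_snd {F : ℝ × ℝ → ℝ} {V : Set (ℝ × ℝ)} (hV : IsOpen V)
    (hF : ContDiffOn ℝ ∞ F V) {t θ : ℝ} (h : (t, θ) ∈ V) :
    ContDiffAt ℝ ∞ (fun θ => F (t, θ)) θ := by
  have h1 : ContDiffAt ℝ ∞ F (t, θ) := hF.contDiffAt (hV.mem_nhds h)
  have h2 : ContDiffAt ℝ ∞ (fun θ : ℝ => ((t, θ) : ℝ × ℝ)) θ := by fun_prop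
  exact ContDiffAt.comp θ h1 h2

theorem S_le_one {κ : ℝ} (S : SData κ) (z : ℝ × ℝ) : S.u z ≤ 1 := by
  by_cases h : z ∈ SC
  · exact (S.lt1 z h).le
  · exact (S.slit z h).le

theorem ext_lt_one {κ C0 : ℝ} {D : TData κ C0} {τ θ : ℝ} (h : D.ext (τ, θ) < 1) :
    τ < D.T θ ∧ D.ext (τ, θ) = D.u (τ, θ) := by
  rw [TData.ext] at h ⊢
  split_ifs at h with h1
  · exact ⟨h1, if_pos h1⟩
  · exact absurd h (lt_irrefl _)

theorem ext_eventually {κ C0 : ℝ} (D : TData κ C0) {τ θ : ℝ} (h : τ < D.T θ) :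
    (fun θ' => D.ext (τ, θ')) =ᶠ[𝓝 θ] fun θ' => D.u (τ, θ') := by
  have ho : IsOpen {θ' : ℝ | τ < D.T θ'} := isOpen_lt continuous_const D.Tcont
  filter_upwards [ho.mem_nhds h] with θ' h'
  rw [TData.ext]
  exact if_pos h'

theorem pkB7 (h1 : GB1) (h2 : GB2) (h5 : GB5) (h6 : GB6) : GB7 := by
  intro κ hκ hκ1 S D hI τ
  by_contra hcon
  rw [not_le] at hcon
  obtain ⟨hcont, hb, hper, hmax⟩ := h1 κ hκ hκ1 S D
  have hT : LamT D τ 1 = ∫ θ in (0 : ℝ)..(2 * π), (1 - D.ext (τ, θ)) := by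
    rw [LamT]
    congr 1
    ext θ
    exact max_eq_right (by linarith [(hb (τ, θ)).2])
  have hS : LamS S.toSData τ 1 = ∫ θ in (0 : ℝ)..(2 * π), (1 - S.u (τ, θ)) := by
    rw [LamS]
    congr 1
    ext θ
    exact max_eq_right (by linarith [S_le_one S.toSData (τ, θ)])
  obtain ⟨τ₀, s₀, hM⟩ := hmax ⟨τ, 1, zero_le_one, le_refl 1, by rw [hT, hS]; exact hcon⟩
  obtain ⟨hs0, hs1, ϑ₀, hϑ0, hϑ1, hu0, hvol⟩ := h2 κ hκ hκ1 S D τ₀ s₀ hM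
  obtain ⟨q1, q2, q3⟩ := h5 κ hκ hκ1 S D τ₀ s₀ ϑ₀ hM hs0 hs1 hϑ0 hϑ1 hu0 hvol
  have hfc : Continuous (fun θ : ℝ => D.ext (τ₀, θ)) := hcont.comp (by fun_prop)
  have hV : ∀ θ : ℝ, τ₀ < D.T θ → (τ₀, θ) ∈ D.V := fun θ h => D.VT (τ₀, θ) h.le
  have hmeas : MeasurableSet {θ : ℝ | θ ∈ Ioc 0 (2 * π) ∧ D.ext (τ₀, θ) < s₀} :=
    measurableSet_Ioc.inter (isOpen_lt hfc continuous_const).measurableSet
  refine h6 (fun θ => D.ext (τ₀, θ)) (fun θ => D.om (τ₀, θ)) s₀ (-D2 S.u (τ₀, ϑ₀))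
    (S.om (τ₀, ϑ₀)) hfc (fun θ => hper τ₀ θ) (fun θ => D.omper τ₀ θ) ?_ (S.om_pos τ₀ ϑ₀ hϑ0 hϑ1)
    ?_ ?_ ?_ q3 ?_
  · have := S.uneg τ₀ ϑ₀ hϑ0 hϑ1
    linarith
  · intro θ hθ
    obtain ⟨k1, _⟩ := ext_lt_one (lt_of_le_of_lt hθ hs1)
    constructor
    · exact ((contDiffAt_snd D.Vopen D.sys.1 (hV θ k1)).congr_of_eventuallyEq
        (ext_eventually D k1)).of_le ENat.LEInfty.out
    · exact (contDiffAt_snd D.Vopen D.sys.2.1 (hV θ k1)).of_le ENat.LEInfty.out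
  · rw [← q1]
    refine setIntegral_congr_fun hmeas ?_
    intro θ hθ
    obtain ⟨k1, _⟩ := ext_lt_one (lt_trans hθ.2 hs1)
    exact (hasDerivAt_snd D.Vopen D.sys.2.1 (hV θ k1)).deriv
  · refine le_of_eq_of_le ?_ q2
    refine setIntegral_congr_fun hmeas ?_
    intro θ hθ
    obtain ⟨k1, _⟩ := ext_lt_one (lt_trans hθ.2 hs1)
    have ho : IsOpen {θ' : ℝ | τ₀ < D.T θ'} := isOpen_lt continuous_const D.Tcont
    have e1 : deriv (fun θ' => D.ext (τ₀, θ')) =ᶠ[𝓝 θ] fun θ' => D2 D.u (τ₀, θ') := by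
      filter_upwards [ho.mem_nhds k1] with θ' h'
      rw [(ext_eventually D h').deriv_eq]
      exact (hasDerivAt_snd D.Vopen D.sys.1 (hV θ' h')).deriv
    show deriv (deriv (fun θ' => D.ext (τ₀, θ'))) θ = _
    rw [e1.deriv_eq]
    exact (hasDerivAt_snd D.Vopen (contDiffOn_D2 D.Vopen D.sys.1) (hV θ k1)).deriv
  · intro θ hθ
    have hθ' : D.ext (τ₀, θ) = s₀ := hθ
    obtain ⟨k1, k2⟩ := ext_lt_one (D := D) (τ := τ₀) (θ := θ) (by rw [hθ']; exact hs1)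
    obtain ⟨ϑ, m1, m2, m3, m4⟩ := hI (τ₀, θ) k1
    have m3' : S.u (τ₀, ϑ) = S.u (τ₀, ϑ₀) := by
      rw [hu0, ← hθ', k2]
      exact m3
    have hϑ : ϑ = ϑ₀ :=
      (strictAnti_u S.toSData τ₀).injOn ⟨m1.le, m2.le⟩ ⟨hϑ0.le, hϑ1.le⟩ m3'
    rw [← hϑ]
    exact m4

end Pool.Agent.Helper51.PCap
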