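import Pool.Agent.Helper25.PCap.GoalsT

/-!
Packet T0 of MP_576c25_an: a concave cut-off.
-/

set_option autoImplicit false

open MeasureTheory Set Filter Topology
open scoped ContDiff Real

noncomputable section

namespace Pool.Agent.Helper51.PCap

open Pool.Agent.Helper25.PCap

/-- the density -/
def gg (x : ℝ) : ℝ := expNegInvGlue (1 - x)

theorem gg_contDiff : ContDiff ℝ ∞ gg := by
  have h : ContDiff ℝ ((⊤ : ℕ∞) : WithTop ℕ∞) expNegInvGlue := expNegInvGlue.contDiff
  exact h.comp (contDiff_const.sub contDiff_id)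

theorem gg_antitone : Antitone gg := fun x y h => expNegInvGlue.monotone (by linarith)

theorem gg_nonneg (x : ℝ) : 0 ≤ gg x := expNegInvGlue.nonneg _

theorem gg_le (x : ℝ) : gg x ≤ 1 := by
  rw [gg, expNegInvGlue]
  split_ifs with h
  · exact zero_le_one
  · rw [Real.exp_le_one_iff]
    have : 0 < (1 - x)⁻¹ := inv_pos.mpr (not_le.mp h)
    linarith

theorem pkT0 : GT0 := by
  have hc : Continuous gg := gg_contDiff.continuous
  set I : ℝ := ∫ x in (0 : ℝ)..1, gg x with hI
  have hIpos : 0 < I := by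
    refine intervalIntegral.intervalIntegral_pos_of_pos_on (hc.intervalIntegrable _ _) ?_ zero_lt_one
    intro x hx
    exact expNegInvGlue.pos_of_pos (by linarith [hx.2])
  let G : ℝ → ℝ := fun x => I⁻¹ * ∫ y in (0 : ℝ)..x, gg y
  have hd : ∀ x, HasDerivAt G (I⁻¹ * gg x) x := by
    intro x
    have := intervalIntegral.integral_hasDerivAt_right (hc.intervalIntegrable 0 x)
      (hc.stronglyMeasurableAtFilter _ _) hc.continuousAt
    exact this.const_mul I⁻¹
  have hderiv : deriv G = fun x => I⁻¹ * gg x := funext fun x => (hd x).deriv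
  refine ⟨G, ?_, ?_, ?_, ?_, ?_, I⁻¹, ?_⟩
  · rw [contDiff_infty_iff_deriv]
    refine ⟨fun x => (hd x).differentiableAt, ?_⟩
    rw [hderiv]
    exact contDiff_const.mul gg_contDiff
  · simp [G]
  · intro x hx
    have h1 : ∫ y in (0 : ℝ)..x, gg y = I + ∫ y in (1 : ℝ)..x, gg y :=
      (intervalIntegral.integral_add_adjacent_intervals (hc.intervalIntegrable _ _)
        (hc.intervalIntegrable _ _)).symm
    have h2 : ∫ y in (1 : ℝ)..x, gg y = 0 := by
      rw [← intervalIntegral.integral_zero (a := 1) (b := x)]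
      refine intervalIntegral.integral_congr fun y hy => ?_
      rw [uIcc_of_le hx] at hy
      exact expNegInvGlue.zero_of_nonpos (by linarith [hy.1])
    show I⁻¹ * ∫ y in (0 : ℝ)..x, gg y = 1
    rw [h1, h2, add_zero, inv_mul_cancel₀ hIpos.ne']
  · intro x
    rw [hderiv]
    exact mul_nonneg (inv_nonneg.mpr hIpos.le) (gg_nonneg x)
  · rw [hderiv]
    intro x y h
    exact mul_le_mul_of_nonneg_left (gg_antitone h) (inv_nonneg.mpr hIpos.le)
  · intro x
    rw [hderiv]
    calc I⁻¹ * gg x ≤ I⁻¹ * 1 := mul_le_mul_of_nonneg_left (gg_le x) (inv_nonneg.mpr hIpos.le)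
      _ = I⁻¹ := mul_one _

end Pool.Agent.Helper51.PCap
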